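import Pool.Agent.Work.MP_99322d_an.UB.Data

set_option autoImplicit false

namespace Pool.Agent.Work.MP_99322d_an.U.UB

theorem ckS : cov forb dat.words 0 24 [] = true := by decide +kernel

end Pool.Agent.Work.MP_99322d_an.U.UB
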