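import Pool.Agent.Work.MP_99322d_an.UB.CW
import Pool.Agent.Work.MP_99322d_an.UB.CN
import Pool.Agent.Work.MP_99322d_an.UB.CS
import Pool.Agent.Work.MP_99322d_an.UB.CB

/-!
# The upper bound at `P0` (helper40, independent data)
-/

set_option autoImplicit false

namespace Pool.Agent.Work.MP_99322d_an.U.UB

theorem upper : h P0.1 P0.2 ≤ ((Real.log L0q : ℝ) : EReal) := by
  refine upper_final dat t0s qs ?_ ?_ ckS ?_
  · intro i hi
    rw [dat_n] at hi
    exact List.all_eq_true.1 ckW i (List.mem_range.2 hi)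
  · intro i hi
    rw [dat_n] at hi
    exact List.all_eq_true.1 ckN i (List.mem_range.2 hi)
  · intro i hi
    rw [dat_n] at hi
    exact List.all_eq_true.1 ckB i (List.mem_range.2 hi)

end Pool.Agent.Work.MP_99322d_an.U.UB
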